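import Pool.Agent.Y154.SE.Loc3
import Pool.Agent.Y160.SE.Stmts

/-!
The local condition.
-/

open Polynomial IsLocalRing WithZero IsDedekindDomain
open scoped NNReal

set_option autoImplicit false

namespace Pool.Agent.Y154.SE

theorem lt_one_iff (x : WithZero (Multiplicative ℤ)) : x < 1 ↔ x ≤ exp (-1) := by
  by_cases h : x = 0
  · rw [h]
    exact ⟨fun _ => zero_le, fun _ => zero_lt_one⟩
  · obtain ⟨k, rfl⟩ := exists_exp h
    rw [← exp_zero, exp_lt_exp, exp_le_exp]
    omega

theorem loc_valued {L : Type*} [Field L] [Valued L (WithZero (Multiplicative ℤ))] [CompleteSpace L]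
    [hdisc : (Valued.v : Valuation L (WithZero (Multiplicative ℤ))).IsRankOneDiscrete]
    (hs : Function.Surjective (Valued.v : Valuation L (WithZero (Multiplicative ℤ))))
    {O : ValuationSubring L} (hO : ∀ y : L, y ∈ O ↔ Valued.v y ≤ 1)
    {E : Type*} [Field E] (wE : Valuation E (WithZero (Multiplicative ℤ))) (j : L →+* E)
    (hle : ∀ y, Valued.v y ≤ 1 → wE (j y) ≤ 1)
    (ℓ : ℕ) (hℓ : ℓ.Prime) (f : O[X]) (hf : f.Monic)
    (hirr : ∀ a : (ResidueField O)[X], Irreducible a → ℓ.Coprime a.natDegree)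
    (hreg : ∀ a : O[X], a.Monic → Irreducible (a.map (residue O)) →
      f ∉ (Ideal.span {a} ⊔ (maximalIdeal O).map C) ^ 2)
    (hdeg : ℓ.Coprime f.natDegree) (p c : L[X]) (hp : p.Monic) (hpi : Irreducible p)
    (hpf : p ∣ f.map (algebraMap O L) - c ^ ℓ) (x : E)
    (hx : ((f.map (algebraMap O L)).map j).eval x = 0) :
    ∃ γ : WithZero (Multiplicative ℤ), wE ((p.map j).eval x) = γ ^ ℓ := by
  let hr : (Valued.v : Valuation L (WithZero (Multiplicative ℤ))).RankOne :=
    Valuation.IsRankOneDiscrete.rankOne _ (e := 2) one_lt_two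
  let _ : NontriviallyNormedField L := Valued.toNontriviallyNormedField (L := L)
    (Γ₀ := WithZero (Multiplicative ℤ))
  have hO' : ∀ y : L, y ∈ O ↔ ‖y‖ ≤ 1 := by
    intro y
    rw [hO]
    exact Valued.toNormedField.norm_le_one_iff.symm
  obtain ⟨t0, ht0⟩ := hs (exp (-1))
  have ht0' : t0 ∈ O := by
    rw [hO, ht0, ← exp_zero, exp_le_exp]
    norm_num
  have ht00 : t0 ≠ 0 := by
    rintro rfl
    rw [map_zero] at ht0
    exact exp_ne_zero ht0.symm
  set t : O := ⟨t0, ht0'⟩ with htt
  have ht : maximalIdeal O = Ideal.span {t} := by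
    ext y
    have h1 : y ∈ maximalIdeal O ↔ Valued.v (y : L) < 1 := by
      rw [mem_max_iff hO']
      exact Valued.toNormedField.norm_lt_one_iff
    rw [h1, lt_one_iff, Ideal.mem_span_singleton, ← ht0]
    constructor
    · intro h
      have h2 : (y : L) / t0 ∈ O := by
        rw [hO, map_div₀]
        exact div_le_one_of_le₀ h zero_le
      refine ⟨⟨_, h2⟩, ?_⟩
      ext
      exact (mul_div_cancel₀ (y : L) ht00).symm
    · rintro ⟨z, hz⟩
      rw [hz]
      change Valued.v (t0 * (z : L)) ≤ _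
      rw [map_mul]
      exact mul_le_of_le_one_right' ((hO _).1 z.2)
  have hd : ∀ y : L, y ≠ 0 → ∃ k : ℤ, ‖y‖₊ = ‖(t : L)‖₊ ^ k := by
    intro y hy
    obtain ⟨k, hk⟩ := exists_exp ((Valuation.ne_zero_iff (Valued.v : Valuation L _)).2 hy)
    refine ⟨-k, ?_⟩
    have h1 : Valued.v y = Valued.v (t0 ^ (-k)) := by
      rw [map_zpow₀, ht0, hk, ← exp_zsmul]
      congr 1
      simp
    rw [← nnnorm_zpow]
    apply NNReal.coe_injective
    exact le_antisymm (Valued.toNormedField.norm_le_iff.2 h1.le)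
      (Valued.toNormedField.norm_le_iff.2 h1.ge)
  let _ : Algebra L E := j.toAlgebra
  have hint : IsIntegral L x := by
    refine ⟨f.map (algebraMap O L), hf.map _, ?_⟩
    rw [eval_map] at hx
    exact hx
  have : Algebra.IsAlgebraic L (IntermediateField.adjoin L {x}) :=
    IntermediateField.isAlgebraic_adjoin_simple hint
  set M := IntermediateField.adjoin L {x} with hM
  set x' : M := IntermediateField.AdjoinSimple.gen L x with hx'
  have hxx : algebraMap M E x' = x := IntermediateField.AdjoinSimple.algebraMap_gen L x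
  have hev : ∀ q : L[X], algebraMap M E (aeval x' q) = (q.map j).eval x := by
    intro q
    rw [← aeval_algebraMap_apply, hxx, eval_map]
    rfl
  have key := loc_main hO' t ht hd (wE.comap (algebraMap M E)) (fun y hy => by
      have : algebraMap M E (algebraMap L M y) = j y := rfl
      rw [Valuation.comap_apply, this]
      exact hle y (Valued.toNormedField.norm_le_one_iff.1 hy)) ℓ hℓ f hf hirr hreg hdeg p c hp hpi
    hpf x' (by
      apply (algebraMap M E).injective
      rw [hev, map_zero]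
      exact hx)
  rw [Valuation.comap_apply, hev] at key
  exact key

theorem stLoc : Pool.Agent.Y160.SE.StLoc := by
  intro ℓ A F _ _ _ _ _ v E _ wE j hle hlt f fL p c θ hℓ hfL hf hsep hirr hreg hdeg hθ hp hpi hnd hpf
  subst hfL
  exact loc_valued (HeightOneSpectrum.valuedAdicCompletion_surjective F v) (fun y => Iff.rfl) wE j hle
    ℓ hℓ f hf hirr hreg hdeg p c hp hpi hpf θ hθ

end Pool.Agent.Y154.SE
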