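import Mathlib

/-!
The spectral norm on the algebraic closure of a complete field, resultants.
-/

open Polynomial
open scoped NNReal

set_option autoImplicit false

namespace Pool.Agent.Y154.SE

/-- A root of a monic polynomial with integral coefficients is integral. -/
theorem val_le_one {K Γ : Type*} [Field K] [LinearOrderedCommGroupWithZero Γ] (w : Valuation K Γ)
    (P : K[X]) (hP : P.Monic) (hc : ∀ i, w (P.coeff i) ≤ 1) (z : K) (hz : P.eval z = 0) :
    w z ≤ 1 := by
  by_contra h
  rw [not_le] at h
  have h0 : w z ≠ 0 := (zero_lt_one.trans h).ne'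
  rw [eval_eq_sum_range, Finset.sum_range_succ, hP.coeff_natDegree, one_mul] at hz
  have h1 : w (∑ x ∈ Finset.range P.natDegree, P.coeff x * z ^ x) < w (z ^ P.natDegree) := by
    refine Valuation.map_sum_lt _ (by rw [map_pow]; exact pow_ne_zero _ h0) fun i hi => ?_
    rw [map_mul, map_pow, map_pow]
    calc w (P.coeff i) * w z ^ i ≤ 1 * w z ^ i := by
          gcongr
          exact hc i
      _ = w z ^ i := one_mul _
      _ < w z ^ P.natDegree := pow_lt_pow_right₀ h (Finset.mem_range.1 hi)
  rw [← Valuation.map_neg] at h1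
  have h2 : -∑ x ∈ Finset.range P.natDegree, P.coeff x * z ^ x = z ^ P.natDegree := by
    linear_combination -hz
  rw [h2] at h1
  exact lt_irrefl _ h1

/-- The value of a monic polynomial with integral coefficients at a non-integral element. -/
theorem val_eval_large {K Γ : Type*} [Field K] [LinearOrderedCommGroupWithZero Γ] (w : Valuation K Γ)
    (P : K[X]) (hP : P.Monic) (hc : ∀ i, w (P.coeff i) ≤ 1) (z : K) (h : 1 < w z) :
    w (P.eval z) = w z ^ P.natDegree := by
  have h0 : w z ≠ 0 := (zero_lt_one.trans h).ne'
  rw [eval_eq_sum_range, Finset.sum_range_succ, hP.coeff_natDegree, one_mul, ← map_pow]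
  have h1 : w (∑ x ∈ Finset.range P.natDegree, P.coeff x * z ^ x) < w (z ^ P.natDegree) := by
    refine Valuation.map_sum_lt _ (by rw [map_pow]; exact pow_ne_zero _ h0) fun i hi => ?_
    rw [map_mul, map_pow, map_pow]
    calc w (P.coeff i) * w z ^ i ≤ 1 * w z ^ i := by
          gcongr
          exact hc i
      _ = w z ^ i := one_mul _
      _ < w z ^ P.natDegree := pow_lt_pow_right₀ h (Finset.mem_range.1 hi)
  rw [add_comm]
  exact Valuation.map_add_eq_of_lt_left _ h1

/-- The value of a polynomial with integral coefficients at an integral element. -/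
theorem val_eval_le {K Γ : Type*} [Field K] [LinearOrderedCommGroupWithZero Γ] (w : Valuation K Γ)
    (P : K[X]) (hc : ∀ i, w (P.coeff i) ≤ 1) (z : K) (h : w z ≤ 1) :
    w (P.eval z) ≤ 1 := by
  rw [eval_eq_sum_range]
  refine Valuation.map_sum_le _ fun i _ => ?_
  rw [map_mul, map_pow]
  exact mul_le_one' (hc i) (pow_le_one' h i)

/-- The value of a polynomial with small coefficients at an integral element. -/
theorem val_eval_lt {K Γ : Type*} [Field K] [LinearOrderedCommGroupWithZero Γ] (w : Valuation K Γ)
    (P : K[X]) (hc : ∀ i, w (P.coeff i) < 1) (z : K) (h : w z ≤ 1) :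
    w (P.eval z) < 1 := by
  rw [eval_eq_sum_range]
  refine Valuation.map_sum_lt _ one_ne_zero fun i _ => ?_
  rw [map_mul, map_pow]
  exact mul_lt_one_of_lt_of_le (hc i) (pow_le_one' h i)

variable {L : Type*} [NontriviallyNormedField L] [IsUltrametricDist L] [CompleteSpace L]

/-- The spectral norm as a nonnegative real number. -/
noncomputable def snn (z : AlgebraicClosure L) : ℝ≥0 :=
  ⟨spectralNorm L (AlgebraicClosure L) z, spectralNorm_nonneg z⟩

theorem coe_snn (z : AlgebraicClosure L) : (snn z : ℝ) = spectralNorm L (AlgebraicClosure L) z := rfl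

/-- The spectral valuation of the algebraic closure. -/
noncomputable def sv : Valuation (AlgebraicClosure L) ℝ≥0 where
  toFun z := snn z
  map_zero' := by
    ext
    exact spectralNorm_zero
  map_one' := by
    ext
    exact spectralNorm_one
  map_mul' x y := by
    ext
    exact spectralAlgNorm_mul x y
  map_add_le_max' x y := by
    have h := isNonarchimedean_spectralNorm (K := L) (L := AlgebraicClosure L) x y
    rw [← coe_snn, ← coe_snn, ← coe_snn] at h
    rcases le_max_iff.1 h with h | h
    · exact le_max_of_le_left (NNReal.coe_le_coe.1 h)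
    · exact le_max_of_le_right (NNReal.coe_le_coe.1 h)

theorem sv_apply (z : AlgebraicClosure L) :
    (sv z : ℝ) = spectralValue (minpoly L z) := rfl

theorem sv_algebraMap (y : L) : sv (algebraMap L (AlgebraicClosure L) y) = ‖y‖₊ := by
  ext
  exact spectralNorm_extends y

theorem sv_equiv (σ : Gal(AlgebraicClosure L/L)) (z : AlgebraicClosure L) : sv (σ z) = sv z := by
  ext
  exact (spectralNorm_eq_of_equiv σ z).symm

theorem sv_le_one_iff (z : AlgebraicClosure L) : sv z ≤ 1 ↔ ∀ n, ‖(minpoly L z).coeff n‖ ≤ 1 := by
  rw [← spectralValue_le_one_iff (minpoly.monic (Algebra.IsIntegral.isIntegral z)),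
    ← NNReal.coe_le_coe, sv_apply]
  rfl

theorem sv_conj (θ θ' : AlgebraicClosure L) (h : aeval θ' (minpoly L θ) = 0) (g : L[X]) :
    sv (aeval θ' g) = sv (aeval θ g) := by
  obtain ⟨σ, hσ⟩ := minpoly.exists_algEquiv_of_root (Algebra.IsAlgebraic.isAlgebraic θ) h
  rw [← hσ, ← sv_equiv σ]
  congr 1
  rw [← AlgEquiv.coe_toAlgHom, ← aeval_algHom_apply]

theorem sv_resultant (θ : AlgebraicClosure L) (g : L[X]) :
    ‖resultant (minpoly L θ) g‖₊ = sv (aeval θ g) ^ (minpoly L θ).natDegree := by
  have hm : (minpoly L θ).Monic := minpoly.monic (Algebra.IsIntegral.isIntegral θ)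
  set f' := (minpoly L θ).map (algebraMap L (AlgebraicClosure L)) with hf'
  set g' := g.map (algebraMap L (AlgebraicClosure L)) with hg'
  have hs : f'.Splits := IsAlgClosed.splits f'
  have h1 : algebraMap L (AlgebraicClosure L) (resultant (minpoly L θ) g)
      = (f'.roots.map g'.eval).prod := by
    have h2 := resultant_eq_prod_eval f' g' g'.natDegree le_rfl hs
    rw [hf', hg', natDegree_map, natDegree_map, resultant_map_map, leadingCoeff_map, hm.leadingCoeff,
      map_one, one_pow, one_mul] at h2
    exact h2
  rw [← sv_algebraMap, h1, map_multiset_prod, Multiset.map_map]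
  have h3 : Multiset.map (⇑sv ∘ fun x => eval x g') f'.roots
      = Multiset.map (fun _ => sv (aeval θ g)) f'.roots := by
    refine Multiset.map_congr rfl fun x hx => ?_
    have hx' : aeval x (minpoly L θ) = 0 := by
      have := (mem_roots'.1 hx).2
      rw [IsRoot.def, hf', eval_map_algebraMap] at this
      exact this
    rw [Function.comp_apply, hg', eval_map_algebraMap]
    exact sv_conj θ x hx' g
  rw [h3, Multiset.map_const', Multiset.prod_replicate, ← hs.natDegree_eq_card_roots, hf',
    natDegree_map]

theorem sv_resultant_comm (θ ξ : AlgebraicClosure L) :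
    sv (aeval θ (minpoly L ξ)) ^ (minpoly L θ).natDegree =
      sv (aeval ξ (minpoly L θ)) ^ (minpoly L ξ).natDegree := by
  rw [← sv_resultant, ← sv_resultant, resultant_comm, nnnorm_mul, nnnorm_pow, nnnorm_neg,
    nnnorm_one, one_pow, one_mul]

end Pool.Agent.Y154.SE
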