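import Pool.Agent.Y154.SE.Loc1

/-!
Reduction of polynomials at an integral element of the algebraic closure.
-/

open Polynomial IsLocalRing
open scoped NNReal

set_option autoImplicit false

namespace Pool.Agent.Y154.SE

variable {L : Type*} [NontriviallyNormedField L] [IsUltrametricDist L] [CompleteSpace L]
  {O : ValuationSubring L}

theorem mem_max_iff (hO : ∀ y : L, y ∈ O ↔ ‖y‖ ≤ 1) (x : O) :
    x ∈ maximalIdeal O ↔ ‖(x : L)‖ < 1 := by
  rw [mem_maximalIdeal, mem_nonunits_iff]
  constructor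
  · intro h
    by_contra h1
    rw [not_lt] at h1
    refine h ?_
    have hx : (x : L) ≠ 0 := by
      intro e
      rw [e, norm_zero] at h1
      linarith
    have h2 : ((x : L)⁻¹) ∈ O := by
      rw [hO, norm_inv]
      exact inv_le_one_of_one_le₀ h1
    refine IsUnit.of_mul_eq_one ⟨_, h2⟩ ?_
    ext
    exact mul_inv_cancel₀ hx
  · intro h hu
    obtain ⟨u, hu⟩ := hu
    have h1 : ‖((u⁻¹ : Oˣ) : O).1‖ ≤ 1 := (hO _).1 (((u⁻¹ : Oˣ) : O).2)
    have h2 : (x : L) * ((u⁻¹ : Oˣ) : O).1 = 1 := by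
      rw [← hu]
      have := congrArg (Subtype.val) (Units.mul_inv u)
      exact this
    have h3 := congrArg norm h2
    rw [norm_mul, norm_one] at h3
    have h4 : ‖(x : L)‖ * ‖((u⁻¹ : Oˣ) : O).1‖ < 1 :=
      mul_lt_one_of_nonneg_of_lt_one_left (norm_nonneg _) h h1
    linarith

theorem sv_coe_le (hO : ∀ y : L, y ∈ O ↔ ‖y‖ ≤ 1) (x : O) :
    sv (algebraMap L (AlgebraicClosure L) (x : L)) ≤ 1 := by
  rw [sv_algebraMap]
  exact (hO _).1 x.2

theorem sv_coe_lt (hO : ∀ y : L, y ∈ O ↔ ‖y‖ ≤ 1) (x : O) (hx : residue O x = 0) :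
    sv (algebraMap L (AlgebraicClosure L) (x : L)) < 1 := by
  rw [sv_algebraMap]
  exact (mem_max_iff hO x).1 ((residue_eq_zero_iff x).1 hx)

/-- Evaluation of an integral polynomial. -/
noncomputable def ev (θ : AlgebraicClosure L) : O[X] →+* AlgebraicClosure L :=
  (aeval θ : L[X] →ₐ[L] AlgebraicClosure L).toRingHom.comp (mapRingHom (algebraMap O L))

theorem ev_apply (θ : AlgebraicClosure L) (g : O[X]) :
    ev θ g = aeval θ (g.map (algebraMap O L)) := rfl

theorem sv_ev_le (hO : ∀ y : L, y ∈ O ↔ ‖y‖ ≤ 1) {θ : AlgebraicClosure L} (hθ : sv θ ≤ 1)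
    (g : O[X]) : sv (ev θ g) ≤ 1 := by
  rw [ev_apply, ← eval_map_algebraMap]
  refine val_eval_le _ _ (fun i => ?_) _ hθ
  rw [coeff_map, coeff_map]
  exact sv_coe_le hO _

theorem sv_ev_lt (hO : ∀ y : L, y ∈ O ↔ ‖y‖ ≤ 1) {θ : AlgebraicClosure L} (hθ : sv θ ≤ 1)
    (g : O[X]) (hg : g.map (residue O) = 0) : sv (ev θ g) < 1 := by
  rw [ev_apply, ← eval_map_algebraMap]
  refine val_eval_lt _ _ (fun i => ?_) _ hθ
  rw [coeff_map, coeff_map]
  refine sv_coe_lt hO _ ?_
  have := congrArg (fun q => q.coeff i) hg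
  simpa using this

/-- The polynomials of small value. -/
noncomputable def smallI (hO : ∀ y : L, y ∈ O ↔ ‖y‖ ≤ 1) (θ : AlgebraicClosure L) (hθ : sv θ ≤ 1) :
    Ideal O[X] where
  carrier := {g | sv (ev θ g) < 1}
  zero_mem' := by simp
  add_mem' := by
    intro a b ha hb
    change sv (ev θ (a + b)) < 1
    rw [map_add]
    exact Valuation.map_add_lt _ ha hb
  smul_mem' := by
    intro c x hx
    change sv (ev θ (c * x)) < 1
    rw [map_mul, map_mul]
    calc sv (ev θ c) * sv (ev θ x) ≤ 1 * sv (ev θ x) := by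
          gcongr
          exact sv_ev_le hO hθ c
      _ = sv (ev θ x) := one_mul _
      _ < 1 := hx

theorem mem_smallI (hO : ∀ y : L, y ∈ O ↔ ‖y‖ ≤ 1) (θ : AlgebraicClosure L) (hθ : sv θ ≤ 1)
    (g : O[X]) : g ∈ smallI hO θ hθ ↔ sv (ev θ g) < 1 := Iff.rfl

theorem smallI_prime (hO : ∀ y : L, y ∈ O ↔ ‖y‖ ≤ 1) (θ : AlgebraicClosure L) (hθ : sv θ ≤ 1) :
    (smallI hO θ hθ).IsPrime := by
  refine ⟨?_, ?_⟩
  · rw [Ideal.ne_top_iff_one, mem_smallI, map_one, map_one]
    exact lt_irrefl _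
  · intro x y h
    rw [mem_smallI, map_mul, map_mul] at h
    by_contra h1
    rw [not_or, mem_smallI, mem_smallI, not_lt, not_lt] at h1
    exact absurd h (not_lt.2 (one_le_mul h1.1 h1.2))

theorem red_surj : Function.Surjective (mapRingHom (residue O)) :=
  map_surjective _ residue_surjective

/-- The reduction of an integral element of the algebraic closure. -/
theorem exists_a (hO : ∀ y : L, y ∈ O ↔ ‖y‖ ≤ 1) (θ : AlgebraicClosure L) (hθ : sv θ ≤ 1)
    (P : O[X]) (hP : P.Monic) (hPθ : ev θ P = 0) :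
    ∃ a : O[X], a.Monic ∧ Irreducible (a.map (residue O)) ∧
      ∀ g : O[X], sv (ev θ g) < 1 ↔ a.map (residue O) ∣ g.map (residue O) := by
  have hprime := smallI_prime hO θ hθ
  set φ := mapRingHom (residue O) with hφ
  have hker : RingHom.ker φ ≤ smallI hO θ hθ := by
    intro g hg
    exact sv_ev_lt hO hθ g hg
  set J := (smallI hO θ hθ).map φ with hJ
  have hJp : J.IsPrime := Ideal.map_isPrime_of_surjective red_surj hker
  have hcomap : ∀ g, φ g ∈ J ↔ sv (ev θ g) < 1 := by
    intro g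
    rw [← mem_smallI hO θ hθ, hJ, ← Ideal.mem_comap, Ideal.comap_map_of_surjective _ (red_surj (O := O))]
    constructor
    · intro h
      refine (sup_le le_rfl ?_ : smallI hO θ hθ ⊔ Ideal.comap φ ⊥ ≤ smallI hO θ hθ) h
      exact hker
    · intro h
      exact Ideal.mem_sup_left h
  have hPJ : φ P ∈ J := by
    rw [hcomap, hPθ, map_zero]
    exact zero_lt_one
  have hJb : J ≠ ⊥ := by
    intro e
    rw [e, Ideal.mem_bot] at hPJ
    exact (hP.map (residue O)).ne_zero hPJ
  have hgp := Submodule.IsPrincipal.prime_generator_of_isPrime J hJb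
  set b := Submodule.IsPrincipal.generator J *
    C (Submodule.IsPrincipal.generator J).leadingCoeff⁻¹ with hb
  have hassoc : Associated b (Submodule.IsPrincipal.generator J) :=
    (associated_mul_unit_left _ _ (isUnit_C.2 (isUnit_iff_ne_zero.2
      (inv_ne_zero (leadingCoeff_ne_zero.2 hgp.ne_zero)))))
  have hbp : Irreducible b := (hassoc.irreducible_iff).2 hgp.irreducible
  have hbm : b.Monic := monic_mul_leadingCoeff_inv hgp.ne_zero
  have hbJ : ∀ q, q ∈ J ↔ b ∣ q := by
    intro q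
    rw [hassoc.dvd_iff_dvd_left, Submodule.IsPrincipal.mem_iff_generator_dvd]
  obtain ⟨a, ha1, -, ha2⟩ := lifts_and_natDegree_eq_and_monic (f := residue O) (p := b)
    ((mem_lifts b).2 (red_surj b)) hbm
  refine ⟨a, ha2, by rw [ha1]; exact hbp, fun g => ?_⟩
  rw [ha1, ← hbJ, ← hcomap]
  rfl

theorem eq_of_irr_dvd {k : Type*} [Field k] {a b : k[X]} (ha : a.Monic) (hb : b.Monic)
    (hai : Irreducible a) (hbi : Irreducible b) (h : a ∣ b) : b = a :=
  (eq_of_monic_of_associated hb ha ((hai.associated_of_dvd hbi h).symm))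

/-- The reduction of an irreducible polynomial has only one irreducible factor. -/
theorem factor_unique (hO : ∀ y : L, y ∈ O ↔ ‖y‖ ≤ 1) (θ : AlgebraicClosure L)
    (P : O[X]) (hP : P.Monic) (hPθ : P.map (algebraMap O L) = minpoly L θ) (a : O[X]) (ham : a.Monic)
    (hai : Irreducible (a.map (residue O)))
    (ha : ∀ g : O[X], sv (ev θ g) < 1 ↔ a.map (residue O) ∣ g.map (residue O)) (b : O[X])
    (hb : b.Monic) (hbi : Irreducible (b.map (residue O)))
    (hbP : b.map (residue O) ∣ P.map (residue O)) : b.map (residue O) = a.map (residue O) := by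
  refine eq_of_irr_dvd (ham.map _) (hb.map _) hai hbi ((ha b).1 ?_)
  have h1 := sv_resultant θ (b.map (algebraMap O L))
  have hpos : (minpoly L θ).natDegree ≠ 0 :=
    (minpoly.natDegree_pos (Algebra.IsIntegral.isIntegral θ)).ne'
  have h2 : resultant (minpoly L θ) (b.map (algebraMap O L)) =
      ((resultant P b : O) : L) := by
    rw [← hPθ, natDegree_map_eq_of_injective (Subtype.val_injective : Function.Injective
      (algebraMap O L)), natDegree_map_eq_of_injective (Subtype.val_injective : Function.Injective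
      (algebraMap O L)), resultant_map_map]
    rfl
  have h3 : residue O (resultant P b) = 0 := by
    rw [← resultant_map_map]
    have e1 : P.natDegree = (P.map (residue O)).natDegree := (hP.natDegree_map _).symm
    have e2 : b.natDegree = (b.map (residue O)).natDegree := (hb.natDegree_map _).symm
    rw [e1, e2, resultant_eq_zero_iff]
    refine ⟨Or.inl (hP.map _).ne_zero, fun hc => ?_⟩
    exact hbi.not_isUnit (hc.symm.isUnit_of_dvd hbP)
  have h4 : ‖((resultant P b : O) : L)‖ < 1 := (mem_max_iff hO _).1 ((residue_eq_zero_iff _).1 h3)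
  rw [h2] at h1
  have h5 : sv (aeval θ (b.map (algebraMap O L))) ^ (minpoly L θ).natDegree < 1 := by
    rw [← h1]
    exact h4
  rw [ev_apply]
  by_contra h6
  rw [not_lt] at h6
  exact absurd h5 (not_lt.2 (one_le_pow₀ h6))

theorem eq_pow_of_factors {k : Type*} [Field k] {a P : k[X]} (ha : a.Monic) (hai : Irreducible a)
    (hP : P.Monic) (h : ∀ b : k[X], b.Monic → Irreducible b → b ∣ P → b = a) : ∃ n, P = a ^ n := by
  obtain ⟨n, Q, hQ, e⟩ := (FiniteMultiplicity.exists_eq_pow_mul_and_not_dvd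
    (finiteMultiplicity_of_degree_pos_of_monic hai.degree_pos ha hP.ne_zero) : ∃ c, P = a ^ _ * c ∧ ¬ a ∣ c)
    |> fun ⟨c, h1, h2⟩ => (⟨_, c, h2, h1⟩ : ∃ n c, ¬ a ∣ c ∧ P = a ^ n * c)
  have hQm : Q.Monic := by
    rw [e] at hP
    exact (ha.pow n).of_mul_monic_left hP
  refine ⟨n, ?_⟩
  by_cases hu : IsUnit Q
  · rw [hQm.eq_one_of_isUnit hu, mul_one] at e
    exact e
  · obtain ⟨b, hbm, hbi, hbQ⟩ := exists_monic_irreducible_factor Q hu
    have := h b hbm hbi (hbQ.trans (by rw [e]; exact dvd_mul_left _ _))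
    rw [this] at hbQ
    exact absurd hbQ hQ

/-- The reduction of an irreducible polynomial is a power of an irreducible polynomial. -/
theorem red_pow (hO : ∀ y : L, y ∈ O ↔ ‖y‖ ≤ 1) (θ : AlgebraicClosure L)
    (P : O[X]) (hP : P.Monic) (hPθ : P.map (algebraMap O L) = minpoly L θ) (a : O[X]) (ham : a.Monic)
    (hai : Irreducible (a.map (residue O)))
    (ha : ∀ g : O[X], sv (ev θ g) < 1 ↔ a.map (residue O) ∣ g.map (residue O)) :
    ∃ n, P.map (residue O) = a.map (residue O) ^ n := by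
  refine eq_pow_of_factors (ham.map _) hai (hP.map _) fun b hbm hbi hbP => ?_
  obtain ⟨b', hb1, -, hb2⟩ := lifts_and_natDegree_eq_and_monic (f := residue O) (p := b)
    ((mem_lifts b).2 (red_surj b)) hbm
  rw [← hb1] at hbP hbi ⊢
  exact factor_unique hO θ P hP hPθ a ham hai ha b' hb2 hbi hbP

theorem mem_of_dvd (a g : O[X]) (h : a.map (residue O) ∣ g.map (residue O)) :
    g ∈ Ideal.span {a} ⊔ (maximalIdeal O).map C := by
  obtain ⟨q, hq⟩ := h
  obtain ⟨b, rfl⟩ := red_surj (O := O) q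
  have h1 : (g - a * b).map (residue O) = 0 := by
    rw [Polynomial.map_sub, Polynomial.map_mul, hq, sub_eq_zero]
    rfl
  have h2 : g - a * b ∈ (maximalIdeal O).map C := by
    rw [Ideal.mem_map_C_iff]
    intro n
    rw [← residue_eq_zero_iff]
    have := congrArg (fun q => q.coeff n) h1
    simp only [coeff_map, coeff_zero] at this
    exact this
  have h3 : g = a * b + (g - a * b) := by ring
  rw [h3]
  exact Submodule.add_mem_sup (Ideal.mul_mem_right _ _ (Ideal.mem_span_singleton_self a)) h2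

end Pool.Agent.Y154.SE
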